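import Pool.Agent.W990.EB.Stm

set_option autoImplicit false
open Finset Pool.Agent.W990.EB

namespace Pool.Agent.W922.EB

lemma geo_bound (s : ℝ) (hs : 0 < s) (L : ℕ) :
    ∑ n ∈ range L, Real.exp (-(s * n)) ≤ 1 / s + 1 := by
  have h0 : ∀ n : ℕ, Real.exp (-(s * n)) = Real.exp (-s) ^ n := by
    intro n
    rw [← Real.exp_nat_mul]; ring_nf
  simp_rw [h0]
  set q := Real.exp (-s) with hq
  have hqpos : 0 < q := Real.exp_pos _
  have h1 : q * (1 + s) ≤ 1 := by
    have := Real.add_one_le_exp s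
    have h2 : q * Real.exp s = 1 := by rw [hq, ← Real.exp_add]; simp
    nlinarith
  have h2 : s / (1 + s) ≤ 1 - q := by
    rw [div_le_iff₀ (by positivity)]
    nlinarith
  have h3 : 0 < 1 - q := lt_of_lt_of_le (by positivity) h2
  have h4 : (1 - q) * ∑ n ∈ range L, q ^ n = 1 - q ^ L := mul_neg_geom_sum q L
  have h5 : ∑ n ∈ range L, q ^ n ≤ 1 / (1 - q) := by
    rw [le_div_iff₀ h3]
    have := pow_pos hqpos L
    nlinarith
  refine h5.trans ?_
  rw [div_le_iff₀ h3]
  have h6 : (1 / s + 1) * (s / (1 + s)) = 1 := by field_simp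
  have h7 : (1 / s + 1) * (s / (1 + s)) ≤ (1 / s + 1) * (1 - q) :=
    mul_le_mul_of_nonneg_left h2 (by positivity)
  linarith

theorem rs : S_RS := by
  intro R S s hR hs
  set L := 2 * S.sup id + 1 with hL
  have h1 : (f S s) ^ 2 = ∑ x ∈ S ×ˢ S, Real.exp (-(s * ((x.1 + x.2 : ℕ) : ℝ))) := by
    unfold f
    rw [sq, sum_mul_sum, ← sum_product']
    apply sum_congr rfl
    intro x _
    rw [← Real.exp_add]
    congr 1
    push_cast
    ring
  have hmaps : ∀ x ∈ S ×ˢ S, x.1 + x.2 ∈ range L := by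
    intro x hx
    rw [mem_product] at hx
    have ha : x.1 ≤ S.sup id := le_sup (f := id) hx.1
    have hb : x.2 ≤ S.sup id := le_sup (f := id) hx.2
    rw [mem_range, hL]
    omega
  rw [h1, ← sum_fiberwise_of_maps_to hmaps]
  have h2 : ∀ n ∈ range L, ∑ x ∈ S ×ˢ S with x.1 + x.2 = n, Real.exp (-(s * ((x.1 + x.2 : ℕ) : ℝ))) ≤
      R * Real.exp (-(s * n)) := by
    intro n _
    have : ∑ x ∈ S ×ˢ S with x.1 + x.2 = n, Real.exp (-(s * ((x.1 + x.2 : ℕ) : ℝ))) =
        ∑ x ∈ S ×ˢ S with x.1 + x.2 = n, Real.exp (-(s * n)) := by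
      apply sum_congr rfl
      intro x hx
      rw [(mem_filter.mp hx).2]
    rw [this, sum_const, nsmul_eq_mul]
    have hr : ((r S n : ℕ) : ℝ) ≤ R := by exact_mod_cast hR n
    unfold r at hr
    exact mul_le_mul_of_nonneg_right hr (Real.exp_pos _).le
  refine (sum_le_sum h2).trans ?_
  rw [← mul_sum]
  exact mul_le_mul_of_nonneg_left (geo_bound s hs L) (Nat.cast_nonneg _)

end Pool.Agent.W922.EB
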